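import Mathlib

/-!
# Zero-sum subsets by characters: the bound of van Emde Boas and Kruyswijk
-/

namespace Pool.Agent.Lib.H74BB

open Finset

variable {G : Type*} [AddCommGroup G]

theorem two_mul_pow_le (d : ℕ) : 2 * d ^ (d + 1) ≤ (d + 1) ^ (d + 1) := by
  rcases Nat.eq_zero_or_pos d with h | h
  · subst h; norm_num
  have hd : (0 : ℝ) < d := by exact_mod_cast h
  have h1 := one_add_mul_le_pow (show (-2 : ℝ) ≤ 1 / d by
    have : (0 : ℝ) ≤ 1 / d := by positivity
    linarith) (d + 1)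
  have h2 : (2 : ℝ) ≤ 1 + ((d + 1 : ℕ) : ℝ) * (1 / d) := by
    push_cast
    have : (1 : ℝ) ≤ (d + 1) * (1 / d) := by
      rw [mul_one_div, le_div_iff₀ hd]
      linarith
    linarith
  have h3 : (2 : ℝ) * (d : ℝ) ^ (d + 1) ≤ ((d : ℝ) + 1) ^ (d + 1) := by
    calc (2 : ℝ) * (d : ℝ) ^ (d + 1) ≤ (1 + 1 / (d : ℝ)) ^ (d + 1) * (d : ℝ) ^ (d + 1) :=
          mul_le_mul_of_nonneg_right (h2.trans h1) (by positivity)
      _ = ((d : ℝ) + 1) ^ (d + 1) := by
        rw [← mul_pow]
        congr 1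
        field_simp
  exact_mod_cast h3

theorem char_sum (χ : AddChar G ℂ) (T : Finset G) : χ (∑ g ∈ T, g) = ∏ g ∈ T, χ g := by
  classical
  induction T using Finset.induction_on with
  | empty => simp [AddChar.map_zero_eq_one]
  | insert a T ha ih => rw [sum_insert ha, prod_insert ha, AddChar.map_add_eq_mul, ih]

theorem char_choice [Finite G] {e : ℕ} (he0 : 0 < e)
    (he : ∀ g : G, e • g = 0) (Z : Finset (AddChar G ℂ)) (g : G) :
    ∃ ζ : ℂ, ζ ≠ 0 ∧ e * (Z.filter fun χ => χ g ≠ ζ).card ≤ (e - 1) * Z.card := by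
  classical
  set t : Finset ℂ := Polynomial.nthRootsFinset e (1 : ℂ) with ht
  have htc : t.card ≤ e := by
    rw [ht, Polynomial.nthRootsFinset]
    refine (Multiset.toFinset_card_le _).trans ?_
    exact Polynomial.card_nthRoots e 1
  have hmem : ∀ χ ∈ Z, χ g ∈ t := by
    intro χ _
    rw [ht, Polynomial.mem_nthRootsFinset he0]
    rw [← AddChar.map_nsmul_eq_pow, he g, AddChar.map_zero_eq_one]
  have key : ∃ ζ : ℂ, ζ ≠ 0 ∧ Z.card ≤ e * (Z.filter fun χ => χ g = ζ).card := by
    by_contra hcon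
    push Not at hcon
    have hZ : 0 < Z.card := by
      have := hcon 1 one_ne_zero
      omega
    have h1 : Z.card = ∑ ζ ∈ t, (Z.filter fun χ => χ g = ζ).card :=
      card_eq_sum_card_fiberwise hmem
    have hne : t.Nonempty := by
      obtain ⟨χ, hχ⟩ := card_pos.1 hZ
      exact ⟨_, hmem χ hχ⟩
    have h2 : ∑ ζ ∈ t, e * (Z.filter fun χ => χ g = ζ).card < ∑ _ζ ∈ t, Z.card := by
      refine sum_lt_sum_of_nonempty hne fun ζ hζ => hcon ζ ?_
      rintro rfl
      rw [ht, Polynomial.mem_nthRootsFinset he0, zero_pow (by omega)] at hζ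
      exact zero_ne_one hζ
    rw [← mul_sum, ← h1, sum_const, smul_eq_mul] at h2
    have h3 : t.card * Z.card ≤ e * Z.card := Nat.mul_le_mul_right _ htc
    omega
  obtain ⟨ζ, hζ, h⟩ := key
  refine ⟨ζ, hζ, ?_⟩
  have h1 := card_filter_add_card_filter_not (s := Z) (fun χ => χ g = ζ)
  have h2 : (e - 1) * Z.card = e * Z.card - Z.card := by
    rw [Nat.sub_mul, one_mul]
  have h3 : e * Z.card = e * (Z.filter fun χ => χ g = ζ).card +
      e * (Z.filter fun χ => ¬ χ g = ζ).card := by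
    rw [← h1]; ring
  have h4 : (Z.filter fun χ => χ g ≠ ζ).card = (Z.filter fun χ => ¬ χ g = ζ).card := rfl
  rw [h4, h2]
  omega

/-- every set of at least `e (log₂ |G| + 1)` elements has a nonempty subset with sum zero -/
theorem exists_zero_sum_subset [Finite G] {e : ℕ} (he0 : 0 < e) (he : ∀ g : G, e • g = 0)
    (A0 : Finset G) (hA0 : e * (Nat.log 2 (Nat.card G) + 1) ≤ A0.card) :
    ∃ T ⊆ A0, T.Nonempty ∧ ∑ x ∈ T, x = 0 := by
  classical
  have := Fintype.ofFinite G
  obtain ⟨A, hAA, hAc⟩ := exists_subset_card_eq hA0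
  suffices h : ∃ T ⊆ A, T.Nonempty ∧ ∑ x ∈ T, x = 0 by
    obtain ⟨T, hT, h1, h2⟩ := h
    exact ⟨T, hT.trans hAA, h1, h2⟩
  set N := Nat.card G with hN
  set ℓ := Nat.log 2 N with hℓ
  have hNp : 0 < N := Nat.card_pos
  -- greedy choice of the roots of unity
  have greedy : ∀ A : Finset G, ∃ ζ : G → ℂ, (∀ g, ζ g ≠ 0) ∧
      e ^ A.card * ((univ : Finset (AddChar G ℂ)).filter fun χ => ∀ g ∈ A, χ g ≠ ζ g).card ≤
        (e - 1) ^ A.card * N := by
    intro A
    induction A using Finset.induction_on with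
    | empty =>
      refine ⟨fun _ => 1, fun _ => one_ne_zero, ?_⟩
      simp only [card_empty, pow_zero, one_mul, notMem_empty, false_imp_iff, implies_true,
        filter_true, card_univ]
      rw [hN, Nat.card_eq_fintype_card, AddChar.card_eq]
    | insert a A ha ih =>
      obtain ⟨ζ, hζ, hc⟩ := ih
      obtain ⟨z, hz, hzc⟩ := char_choice he0 he
        ((univ : Finset (AddChar G ℂ)).filter fun χ => ∀ g ∈ A, χ g ≠ ζ g) a
      refine ⟨Function.update ζ a z, ?_, ?_⟩
      · intro g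
        by_cases hg : g = a
        · subst hg; simpa using hz
        · simpa [Function.update_of_ne hg] using hζ g
      · have e1 : ((univ : Finset (AddChar G ℂ)).filter
            fun χ => ∀ g ∈ insert a A, χ g ≠ Function.update ζ a z g) =
            (((univ : Finset (AddChar G ℂ)).filter fun χ => ∀ g ∈ A, χ g ≠ ζ g).filter
              fun χ => χ a ≠ z) := by
          ext χ
          simp only [mem_filter, mem_univ, true_and, mem_insert, forall_eq_or_imp,
            Function.update_self]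
          constructor
          · rintro ⟨h1, h2⟩
            refine ⟨fun g hg => ?_, h1⟩
            have h3 := h2 g hg
            rwa [Function.update_of_ne (by rintro rfl; exact ha hg)] at h3
          · rintro ⟨h1, h2⟩
            refine ⟨h2, fun g hg => ?_⟩
            rw [Function.update_of_ne (by rintro rfl; exact ha hg)]
            exact h1 g hg
        rw [e1, card_insert_of_notMem ha, pow_succ, pow_succ, mul_assoc]
        calc e ^ A.card * (e * _) ≤ e ^ A.card * ((e - 1) *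
              ((univ : Finset (AddChar G ℂ)).filter fun χ => ∀ g ∈ A, χ g ≠ ζ g).card) :=
              Nat.mul_le_mul_left _ hzc
          _ = (e - 1) * (e ^ A.card *
              ((univ : Finset (AddChar G ℂ)).filter fun χ => ∀ g ∈ A, χ g ≠ ζ g).card) := by ring
          _ ≤ (e - 1) * ((e - 1) ^ A.card * N) := Nat.mul_le_mul_left _ hc
          _ = (e - 1) ^ A.card * (e - 1) * N := by ring
  obtain ⟨ζ, hζ, hc⟩ := greedy A
  have hlt : (e - 1) ^ A.card * N < e ^ A.card := by
    have h1 : N < 2 ^ (ℓ + 1) := Nat.lt_pow_succ_log_self (by norm_num) N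
    have h2 : 2 * (e - 1) ^ e ≤ e ^ e := by
      have := two_mul_pow_le (e - 1)
      rwa [Nat.sub_add_cancel he0] at this
    have h3 : (2 * (e - 1) ^ e) ^ (ℓ + 1) ≤ (e ^ e) ^ (ℓ + 1) := Nat.pow_le_pow_left h2 _
    rw [mul_pow, ← pow_mul, ← pow_mul, ← hAc] at h3
    rcases Nat.eq_zero_or_pos ((e - 1) ^ A.card) with h4 | h4
    · rw [h4, zero_mul]; positivity
    · calc (e - 1) ^ A.card * N < (e - 1) ^ A.card * 2 ^ (ℓ + 1) :=
            Nat.mul_lt_mul_of_pos_left h1 h4
        _ = 2 ^ (ℓ + 1) * (e - 1) ^ A.card := by ring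
        _ ≤ e ^ A.card := h3
  have hempty : ((univ : Finset (AddChar G ℂ)).filter fun χ => ∀ g ∈ A, χ g ≠ ζ g) = ∅ := by
    rw [← card_eq_zero]
    by_contra h0
    have h1 : e ^ A.card * 1 ≤ e ^ A.card *
        ((univ : Finset (AddChar G ℂ)).filter fun χ => ∀ g ∈ A, χ g ≠ ζ g).card :=
      Nat.mul_le_mul_left _ (Nat.one_le_iff_ne_zero.2 h0)
    omega
  by_contra hcon
  push Not at hcon
  have hprod : ∀ χ : AddChar G ℂ, ∏ g ∈ A, (1 + -(ζ g)⁻¹ * χ g) = 0 := by
    intro χ
    have h1 : χ ∉ ((univ : Finset (AddChar G ℂ)).filter fun χ => ∀ g ∈ A, χ g ≠ ζ g) := by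
      rw [hempty]; simp
    simp only [mem_filter, mem_univ, true_and, not_forall, not_not] at h1
    obtain ⟨g, hg, hχ⟩ := h1
    refine prod_eq_zero hg ?_
    rw [hχ, neg_mul, inv_mul_cancel₀ (hζ g)]
    ring
  have hsum : ∑ χ : AddChar G ℂ, ∏ g ∈ A, (1 + -(ζ g)⁻¹ * χ g) = (N : ℂ) := by
    have e1 : ∀ χ : AddChar G ℂ, ∏ g ∈ A, (1 + -(ζ g)⁻¹ * χ g) =
        ∑ T ∈ A.powerset, (∏ g ∈ T, -(ζ g)⁻¹) * χ (∑ g ∈ T, g) := by
      intro χ
      rw [prod_one_add]
      refine sum_congr rfl fun T _ => ?_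
      rw [prod_mul_distrib, char_sum]
    simp only [e1]
    rw [sum_comm]
    rw [sum_eq_single ∅]
    · simp only [prod_empty, one_mul, sum_empty]
      rw [AddChar.sum_apply_eq_ite]
      simp [hN, Nat.card_eq_fintype_card]
    · intro T hT hne
      rw [← mul_sum, AddChar.sum_apply_eq_ite, if_neg, mul_zero]
      exact hcon T (mem_powerset.1 hT) (nonempty_iff_ne_empty.2 hne)
    · intro h
      exact absurd (empty_mem_powerset A) h
  rw [sum_eq_zero fun χ _ => hprod χ] at hsum
  have : N = 0 := by exact_mod_cast hsum.symm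
  omega

end Pool.Agent.Lib.H74BB
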