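import Pool.Agent.Lib.H83G.C

/-!
# Betti elements from the levels of a homomorphism onto a cyclic group
-/

namespace Pool.Agent.Lib.H74BB

open Multiset Pool.Agent.Lib.H83B Pool.Agent.Lib.H83G

variable {G : Type*} [AddCommGroup G]

theorem level_sum {e : ℕ} [NeZero e] (f : G →+ ZMod e) (t : Multiset G) :
    f t.sum = (((t.map fun x => (f x).val).sum : ℕ) : ZMod e) := by
  induction t using Multiset.induction with
  | empty => simp
  | cons a t ih =>
    rw [sum_cons, map_cons, sum_cons, _root_.map_add, ih]
    push_cast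
    rw [ZMod.natCast_zmod_val]

theorem level_val {e : ℕ} [NeZero e] (f : G →+ ZMod e) (t : Multiset G)
    (ht : (t.map fun x => (f x).val).sum < e) :
    (f t.sum).val = (t.map fun x => (f x).val).sum := by
  rw [level_sum, ZMod.val_natCast, Nat.mod_eq_of_lt ht]

/-- A set `X` of elements of positive levels with twice the sum of the levels at most `e` gives
`2 ^ (|X| - 1) - 1` Betti elements. -/
theorem betti_level [Finite G] {e : ℕ} [NeZero e] (f : G →+ ZMod e) (X : Finset G)
    (hpos : ∀ x ∈ X, 1 ≤ (f x).val) (hsum : 2 * ∑ x ∈ X, (f x).val ≤ e) (hX : 1 ≤ X.card) :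
    2 ^ (X.card - 1) ≤ betti G + 1 := by
  classical
  obtain ⟨x0, hx0, hmax⟩ := Finset.exists_max_image X (fun x => (f x).val)
    (Finset.card_pos.1 hX)
  have hep : 0 < e := Nat.pos_of_ne_zero (NeZero.ne e)
  set lev : G → ℕ := fun x => (f x).val with hlev
  set P : Finset (Finset G) := (X.erase x0).powerset.erase ∅ with hP
  have hmem : ∀ S ∈ P, S.Nonempty ∧ S ⊆ X.erase x0 := by
    intro S hS
    rw [hP, Finset.mem_erase, Finset.mem_powerset] at hS
    exact ⟨Finset.nonempty_iff_ne_empty.2 hS.1, hS.2⟩
  have hx0S : ∀ S ∈ P, x0 ∉ S := fun S hS h => by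
    have := (hmem S hS).2 h
    simp at this
  have hSX : ∀ S ∈ P, insert x0 S ⊆ X := by
    intro S hS
    rw [Finset.insert_subset_iff]
    exact ⟨hx0, (hmem S hS).2.trans (Finset.erase_subset _ _)⟩
  have hσ2 : ∀ S ∈ P, 2 * ∑ x ∈ insert x0 S, lev x ≤ e := by
    intro S hS
    have h1 : ∑ x ∈ insert x0 S, lev x ≤ ∑ x ∈ X, lev x :=
      Finset.sum_le_sum_of_subset (hSX S hS)
    have h2 : 2 * ∑ x ∈ X, lev x ≤ e := hsum
    omega
  have hσ1 : ∀ S ∈ P, lev x0 < ∑ x ∈ insert x0 S, lev x := by
    intro S hS
    rw [Finset.sum_insert (hx0S S hS)]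
    obtain ⟨y, hy⟩ := (hmem S hS).1
    have h1 : lev y ≤ ∑ x ∈ S, lev x := Finset.single_le_sum (fun _ _ => Nat.zero_le _) hy
    have h2 := hpos y (Finset.mem_of_mem_erase ((hmem S hS).2 hy))
    have h3 : 1 ≤ lev y := h2
    omega
  have hlevsum : ∀ S : Finset G, (S.val.map lev).sum = ∑ x ∈ S, lev x := fun S => rfl
  have hzf : ∀ S ∈ P, Zsf (insert x0 S).val := by
    intro S hS t ht h0
    by_contra hne
    obtain ⟨y, hy⟩ := exists_mem_of_ne_zero hne
    have h1 : (t.map lev).sum ≤ ((insert x0 S).val.map lev).sum := by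
      obtain ⟨u, hu⟩ := Multiset.le_iff_exists_add.1 ht
      rw [hu, Multiset.map_add, sum_add]
      exact Nat.le_add_right _ _
    rw [hlevsum] at h1
    have h2 := hσ2 S hS
    have h3 : lev y ≤ (t.map lev).sum :=
      Multiset.single_le_sum (fun _ _ => Nat.zero_le _) _ (mem_map_of_mem lev hy)
    have h4 : 1 ≤ lev y := hpos y (hSX S hS (Finset.mem_def.2 (mem_of_le ht hy)))
    have h5 := level_val f t (show (t.map lev).sum < e by omega)
    rw [h0, _root_.map_zero, ZMod.val_zero] at h5
    have h6 : (t.map lev).sum = 0 := h5.symm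
    omega
  have hvsum : ∀ S ∈ P, (f (insert x0 S).val.sum).val = ∑ x ∈ insert x0 S, lev x := by
    intro S hS
    have h2 := hσ2 S hS
    have h1 := hσ1 S hS
    exact level_val f _ (show ((insert x0 S).val.map lev).sum < e by rw [hlevsum]; omega)
  have hvneg : ∀ y : G, 1 ≤ lev y → lev (-y) = e - lev y := by
    intro y hy
    show (f (-y)).val = e - (f y).val
    have hne : f y ≠ 0 := by
      intro h
      have : (f y).val = 0 := by rw [h, ZMod.val_zero]
      have h2 : 1 ≤ (f y).val := hy
      omega
    have : NeZero (f y) := ⟨hne⟩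
    rw [map_neg, ZMod.val_neg_of_ne_zero]
  set U : Finset G → Multiset G := fun S => (-(insert x0 S).val.sum) ::ₘ (insert x0 S).val with hU
  set s : Finset G → Multiset G := fun S => U S + ng (U S) with hs
  have hcard : ∀ S ∈ P, 3 ≤ card (U S) := by
    intro S hS
    simp only [hU, card_cons, Finset.card_val]
    rw [Finset.card_insert_of_notMem (hx0S S hS)]
    have := (hmem S hS).1.card_pos
    omega
  have hrec : ∀ S ∈ P, ∀ x ∈ X.erase x0, (x ∈ S ↔ x ∈ s S) := by
    intro S hS x hx
    have hxX := Finset.mem_of_mem_erase hx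
    have hxne : x ≠ x0 := Finset.ne_of_mem_erase hx
    have h1 := hσ1 S hS
    have h2 := hσ2 S hS
    have h3 : lev x ≤ lev x0 := hmax x hxX
    have h4 : 1 ≤ lev x := hpos x hxX
    constructor
    · intro h
      simp only [hs, hU]
      refine mem_add.2 (Or.inl (mem_cons_of_mem ?_))
      rw [Finset.mem_val, Finset.mem_insert]
      exact Or.inr h
    · intro h
      simp only [hs, hU] at h
      rcases mem_add.1 h with h | h
      · rcases mem_cons.1 h with h | h
        · exfalso
          have h5 : lev x = e - ∑ x ∈ insert x0 S, lev x := by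
            rw [h, hvneg _ (by show 1 ≤ (f _).val; rw [hvsum S hS]; omega)]
            show e - (f _).val = _
            rw [hvsum S hS]
          omega
        · rw [Finset.mem_val, Finset.mem_insert] at h
          rcases h with h | h
          · exact absurd h hxne
          · exact h
      · exfalso
        rw [mem_ng] at h
        rcases mem_cons.1 h with h | h
        · have h5 : x = (insert x0 S).val.sum := neg_injective h
          have h6 : lev x = ∑ x ∈ insert x0 S, lev x := by
            show (f x).val = _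
            rw [h5, hvsum S hS]
          omega
        · have h5 : -x ∈ X := hSX S hS (Finset.mem_def.2 h)
          have h6 : lev (-x) ≤ lev x0 := hmax _ h5
          rw [hvneg x h4] at h6
          omega
  have h1 : P.card ≤ betti G := by
    have h2 : (P.image s).card = P.card := by
      refine Finset.card_image_of_injOn ?_
      intro S hS S' hS' hss
      have hS := Finset.mem_coe.1 hS
      have hS' := Finset.mem_coe.1 hS'
      ext x
      constructor
      · intro hx
        have h3 := (hmem S hS).2 hx
        have h4 := (hrec S hS x h3).1 hx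
        rw [hss] at h4
        exact (hrec S' hS' x h3).2 h4
      · intro hx
        have h3 := (hmem S' hS').2 hx
        have h4 := (hrec S' hS' x h3).1 hx
        rw [← hss] at h4
        exact (hrec S hS x h3).2 h4
    rw [← h2]
    refine card_le_betti _ ?_
    intro y hy
    obtain ⟨S, hS, rfl⟩ := Finset.mem_image.1 hy
    exact isBetti_ng (atom_of_zsf (hzf S hS)) (hcard S hS)
  have h2 : P.card = 2 ^ (X.card - 1) - 1 := by
    rw [hP, Finset.card_erase_of_mem (Finset.empty_mem_powerset _), Finset.card_powerset,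
      Finset.card_erase_of_mem hx0]
  have h3 : 1 ≤ 2 ^ (X.card - 1) := Nat.one_le_two_pow
  omega

end Pool.Agent.Lib.H74BB
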