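import Pool.Agent.Lib.H74BB.Level

/-!
# Choice of a set of elements of small levels
-/

namespace Pool.Agent.Lib.H74BB

open Finset Pool.Agent.Lib.H83B Pool.Agent.Lib.H83G

variable {G : Type*} [AddCommGroup G] [Finite G]

/-- If `f` maps `G` onto `ZMod e`, `3 q ≤ e` and `6 q² ≤ |G|`, then `2 ^ (q - 1) ≤ β(G) + 1`. -/
theorem betti_pick {e : ℕ} (f : G →+ ZMod e) (hf : Function.Surjective f) {q : ℕ} (hq : 1 ≤ q)
    (h3 : 3 * q ≤ e) (h6 : 6 * q ^ 2 ≤ Nat.card G) : 2 ^ (q - 1) ≤ betti G + 1 := by
  classical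
  have := Fintype.ofFinite G
  have : NeZero e := ⟨by omega⟩
  -- the fibers all have `k` elements
  set k := (univ.filter fun x : G => f x = 0).card with hk
  have hfib : ∀ j : ZMod e, (univ.filter fun x : G => f x = j).card = k := by
    intro j
    obtain ⟨y, hy⟩ := hf j
    refine card_bij (fun x _ => x - y) ?_ ?_ ?_
    · intro x hx
      rw [mem_filter] at hx ⊢
      exact ⟨mem_univ _, by rw [map_sub, hx.2, hy, sub_self]⟩
    · intro a _ b _ hab
      exact sub_left_injective hab
    · intro b hb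
      rw [mem_filter] at hb
      refine ⟨b + y, ?_, by abel⟩
      rw [mem_filter]
      exact ⟨mem_univ _, by rw [map_add, hb.2, hy, zero_add]⟩
  have hN : Nat.card G = e * k := by
    rw [Nat.card_eq_fintype_card, ← card_univ,
      card_eq_sum_card_fiberwise (f := f) (t := (univ : Finset (ZMod e))) (fun _ _ => by simp)]
    rw [sum_congr rfl fun j _ => hfib j, sum_const, card_univ, ZMod.card, smul_eq_mul]
  have hkp : 0 < k := by
    rw [hk, card_pos]
    exact ⟨0, by rw [mem_filter]; exact ⟨mem_univ _, map_zero f⟩⟩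
  set t := q / k + 1 with ht
  have hqt : q ≤ t * k := by
    have := Nat.lt_div_mul_add (a := q) hkp
    have e1 : t * k = q / k * k + k := by rw [ht]; ring
    omega
  have hte : 2 * (q * t) ≤ e := by
    have h1 : q / k * k ≤ q := Nat.div_mul_le_self _ _
    have h2 : 6 * q * (q / k) ≤ e := by
      have h4 : 6 * q * (q / k) * k ≤ e * k := by
        calc 6 * q * (q / k) * k = 6 * q * (q / k * k) := by ring
          _ ≤ 6 * q * q := Nat.mul_le_mul_left _ h1
          _ = 6 * q ^ 2 := by ring
          _ ≤ e * k := by rw [← hN]; exact h6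
      exact Nat.le_of_mul_le_mul_right h4 hkp
    have h5 : 2 * (q * t) = 2 * q * (q / k) + 2 * q := by rw [ht]; ring
    have h7 : 6 * q * (q / k) = 3 * (2 * q * (q / k)) := by ring
    omega
  have htlt : t < e := by
    have : t ≤ q * t := Nat.le_mul_of_pos_left _ hq
    omega
  set X0 := univ.filter fun x : G => 1 ≤ (f x).val ∧ (f x).val ≤ t with hX0
  have hX0c : X0.card = t * k := by
    have h1 : ∀ x ∈ X0, (f x).val ∈ Icc 1 t := by
      intro x hx
      rw [hX0, mem_filter] at hx
      rw [mem_Icc]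
      exact hx.2
    rw [card_eq_sum_card_fiberwise h1]
    have h2 : ∀ j ∈ Icc 1 t, (X0.filter fun x => (f x).val = j).card = k := by
      intro j hj
      rw [mem_Icc] at hj
      rw [← hfib (j : ZMod e)]
      congr 1
      ext x
      rw [hX0, mem_filter, mem_filter, mem_filter]
      constructor
      · rintro ⟨_, h⟩
        refine ⟨mem_univ _, ?_⟩
        rw [← h, ZMod.natCast_zmod_val]
      · rintro ⟨_, h⟩
        have h4 : (f x).val = j := by
          rw [h, ZMod.val_natCast, Nat.mod_eq_of_lt (by omega)]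
        exact ⟨⟨mem_univ _, by omega, by omega⟩, h4⟩
    rw [sum_congr rfl h2, sum_const, Nat.card_Icc, smul_eq_mul]
    simp
  obtain ⟨X, hXX0, hXc⟩ := exists_subset_card_eq (show q ≤ X0.card by rw [hX0c]; exact hqt)
  have hXm : ∀ x ∈ X, 1 ≤ (f x).val ∧ (f x).val ≤ t := by
    intro x hx
    have := hXX0 hx
    rw [hX0, mem_filter] at this
    exact this.2
  have hs : 2 * ∑ x ∈ X, (f x).val ≤ e := by
    have h1 : ∑ x ∈ X, (f x).val ≤ ∑ _x ∈ X, t := sum_le_sum fun x hx => (hXm x hx).2
    rw [sum_const, smul_eq_mul, hXc] at h1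
    omega
  have h := betti_level f X (fun x hx => (hXm x hx).1) hs (by omega)
  rwa [hXc] at h

end Pool.Agent.Lib.H74BB
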