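import Mathlib

/-!
# A homomorphism of a finite abelian group onto the cyclic group of order its exponent
-/

set_option autoImplicit false

namespace Pool.Agent.Lib.H74BB

theorem exists_surj_mul (A : Type*) [CommGroup A] [Finite A] :
    ∃ f : A →* Multiplicative (ZMod (Monoid.exponent A)), Function.Surjective f := by
  have hne : NeZero (Monoid.exponent A) := ⟨Monoid.exponent_ne_zero_of_finite⟩
  obtain ⟨E⟩ := CommGroup.monoidHom_mulEquiv_of_hasEnoughRootsOfUnity A ℂ
  obtain ⟨a₀, ha₀⟩ := Monoid.exists_orderOf_eq_exponent (G := A) Monoid.ExponentExists.of_finite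
  obtain ⟨φ, hφ⟩ : ∃ φ : A →* ℂˣ, orderOf φ = Monoid.exponent A :=
    ⟨E.symm a₀, by rw [MulEquiv.orderOf_eq, ha₀]⟩
  have hfr : Finite φ.range := by
    have : Finite (Set.range φ) := Set.finite_range φ
    exact this
  have hcyc : IsCyclic φ.range := isCyclic_subgroup_units _
  have h1 : Nat.card φ.range ∣ Monoid.exponent A := by
    rw [← IsCyclic.exponent_eq_card]
    refine Monoid.exponent_dvd_iff_forall_pow_eq_one.2 ?_
    rintro ⟨_, a, rfl⟩
    apply Subtype.ext
    change (φ a) ^ Monoid.exponent A = 1
    rw [← map_pow, Monoid.pow_exponent_eq_one, map_one]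
  have h2 : Monoid.exponent A ∣ Nat.card φ.range := by
    rw [← hφ]
    refine orderOf_dvd_of_pow_eq_one (MonoidHom.ext fun a => ?_)
    change (φ a) ^ Nat.card φ.range = 1
    have h3 : (φ.rangeRestrict a) ^ Nat.card φ.range = 1 := pow_card_eq_one'
    exact congrArg Subtype.val h3
  have h3 : Nat.card φ.range = Monoid.exponent A := Nat.dvd_antisymm h1 h2
  have e := zmodCyclicMulEquiv hcyc
  rw [h3] at e
  exact ⟨e.symm.toMonoidHom.comp φ.rangeRestrict,
    e.symm.surjective.comp φ.rangeRestrict_surjective⟩

/-- A finite abelian group has a homomorphism onto the cyclic group of order its exponent. -/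
theorem exists_surj (G : Type*) [AddCommGroup G] [Finite G] :
    ∃ f : G →+ ZMod (AddMonoid.exponent G), Function.Surjective f := by
  have he : Monoid.exponent (Multiplicative G) = AddMonoid.exponent G :=
    Monoid.exponent_multiplicative
  have key : ∀ n : ℕ, Monoid.exponent (Multiplicative G) = n →
      ∃ f : Multiplicative G →* Multiplicative (ZMod n), Function.Surjective f := by
    rintro _ rfl
    exact exists_surj_mul (Multiplicative G)
  obtain ⟨f, hf⟩ := key _ he
  refine ⟨AddMonoidHom.toMultiplicative.symm f, fun y => ?_⟩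
  obtain ⟨x, hx⟩ := hf (Multiplicative.ofAdd y)
  exact ⟨Multiplicative.toAdd x, congrArg Multiplicative.toAdd hx⟩

end Pool.Agent.Lib.H74BB
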